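import Pool.Agent.X258.OPC.Lex

/-!
# MP_42d775_co, Q1: disproof

There is a Berge graph `G` on 81 vertices, isomorphic to its complement, such that neither `G` nor
its complement has an even pair, and neither has an odd pair of cliques formed by two of its
maximal cliques.  The graph is the lexicographic square of the line graph of `K_{3,3}` (every
vertex of the line graph of `K_{3,3}` is replaced by a copy of that line graph).
-/

set_option autoImplicit false

namespace Pool.Agent.Results.MP_42d775_co.LexicographicSquare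

open SimpleGraph

/-- `G` is Berge: neither `G` nor its complement has an induced cycle whose length is odd and at
least five (an odd hole of `G`, respectively an odd antihole of `G`). -/
def IsBerge {V : Type} (G : SimpleGraph V) : Prop :=
  ∀ k : ℕ, 5 ≤ k → Odd k →
    IsEmpty (cycleGraph k ↪g G) ∧ IsEmpty (cycleGraph k ↪g Gᶜ)

/-- `{x, y}` is an even pair of `H`: two distinct non-adjacent vertices such that every induced
path of `H` from `x` to `y` has even length.  An induced path of length `n` is an embedding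
of the path graph on `n + 1` vertices as an induced subgraph. -/
def IsEvenPair {V : Type} (H : SimpleGraph V) (x y : V) : Prop :=
  x ≠ y ∧ ¬ H.Adj x y ∧
    ∀ (n : ℕ) (p : pathGraph (n + 1) ↪g H), p 0 = x → p (Fin.last n) = y → Even n

/-- `{K₁, K₂}` is an odd pair of cliques of `H`: every external induced path from `K₁` to `K₂`
(one end in `K₁`, the other end in `K₂`, all other vertices outside `K₁ ∪ K₂`; a common vertex
gives such a path of length zero) has odd length. -/
def IsOddPairOfCliques {V : Type} (H : SimpleGraph V) (K₁ K₂ : Set V) : Prop :=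
  H.IsClique K₁ ∧ H.IsClique K₂ ∧
    ∀ (n : ℕ) (p : pathGraph (n + 1) ↪g H), p 0 ∈ K₁ → p (Fin.last n) ∈ K₂ →
      (∀ i, i ≠ 0 → i ≠ Fin.last n → p i ∉ K₁ ∪ K₂) → Odd n

/-- `K` is a maximal clique of `H`. -/
def IsMaximalClique {V : Type} (H : SimpleGraph V) (K : Set V) : Prop :=
  H.IsClique K ∧ ∀ L : Set V, H.IsClique L → K ⊆ L → L = K

theorem exists_path3 {V : Type} {H : SimpleGraph V} {x u v y : V} (hne : x ≠ y)
    (hn : ¬ H.Adj x y) (h1 : H.Adj x u) (h2 : H.Adj u v) (h3 : H.Adj v y) (h4 : ¬ H.Adj x v)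
    (h5 : ¬ H.Adj u y) (h6 : x ≠ v) (h7 : u ≠ y) :
    ∃ p : pathGraph (3 + 1) ↪g H, p 0 = x ∧ p (Fin.last 3) = y := by
  have hinj : ∀ i j : Fin 4, (![x, u, v, y] : Fin 4 → V) i = ![x, u, v, y] j → i = j := by
    intro i j
    fin_cases i <;> fin_cases j <;>
      simp [hne, hne.symm, h1.ne, h1.ne', h2.ne, h2.ne', h3.ne, h3.ne', h6, h6.symm, h7, h7.symm]
  have hadj : ∀ i j : Fin 4, H.Adj ((![x, u, v, y] : Fin 4 → V) i) (![x, u, v, y] j) ↔
      (pathGraph 4).Adj i j := by
    have e1 := H.adj_comm y x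
    have e2 := H.adj_comm v x
    have e3 := H.adj_comm y u
    intro i j
    fin_cases i <;> fin_cases j <;>
      simp [pathGraph_adj, hn, h1, h1.symm, h2, h2.symm, h3, h3.symm, h4, h5, e1, e2, e3]
  exact ⟨⟨⟨![x, u, v, y], fun i j h => hinj i j h⟩, fun {i j} => hadj i j⟩, rfl, rfl⟩

theorem exists_path2 {V : Type} {H : SimpleGraph V} {x z y : V} (hne : x ≠ y)
    (hn : ¬ H.Adj x y) (h1 : H.Adj x z) (h2 : H.Adj z y) :
    ∃ p : pathGraph (2 + 1) ↪g H, p 0 = x ∧ p 1 = z ∧ p (Fin.last 2) = y := by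
  have hinj : ∀ i j : Fin 3, (![x, z, y] : Fin 3 → V) i = ![x, z, y] j → i = j := by
    intro i j
    fin_cases i <;> fin_cases j <;>
      simp [hne, hne.symm, h1.ne, h1.ne', h2.ne, h2.ne']
  have hadj : ∀ i j : Fin 3, H.Adj ((![x, z, y] : Fin 3 → V) i) (![x, z, y] j) ↔
      (pathGraph 3).Adj i j := by
    have e1 := H.adj_comm y x
    intro i j
    fin_cases i <;> fin_cases j <;>
      simp [pathGraph_adj, hn, h1, h1.symm, h2, h2.symm, e1]
  exact ⟨⟨⟨![x, z, y], fun i j h => hinj i j h⟩, fun {i j} => hadj i j⟩, rfl, rfl, rfl⟩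

open Pool.Agent.X258.OPC in
theorem no_even_pair {V : Type} {H : SimpleGraph V} (h : Nice H) (x y : V) :
    ¬ IsEvenPair H x y := by
  rintro ⟨hne, hn, hev⟩
  obtain ⟨u, v, h1, h2, h3, h4, h5, h6, h7⟩ := h.path3 x y hne hn
  obtain ⟨p, hp1, hp2⟩ := exists_path3 hne hn h1 h2 h3 h4 h5 h6 h7
  have := hev 3 p hp1 hp2
  exact absurd this (by decide)

open Pool.Agent.X258.OPC in
theorem no_odd_pair {V : Type} [Nonempty V] {H : SimpleGraph V} (h : Nice H) (K₁ K₂ : Set V)
    (m₁ : IsMaximalClique H K₁) (m₂ : IsMaximalClique H K₂) :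
    ¬ IsOddPairOfCliques H K₁ K₂ := by
  rintro ⟨c₁, c₂, hodd⟩
  have hne : K₁.Nonempty := by
    by_contra hemp
    rw [Set.not_nonempty_iff_eq_empty] at hemp
    obtain ⟨v⟩ := ‹Nonempty V›
    have := m₁.2 {v} (by simp) (by simp [hemp])
    rw [hemp] at this
    exact absurd this (Set.singleton_ne_empty v)
  obtain ⟨x, hx⟩ := hne
  by_cases hx2 : x ∈ K₂
  · have hs : ∀ i j : Fin (0 + 1), i = j := by decide
    let p : pathGraph (0 + 1) ↪g H :=
      { toFun := fun _ => x
        inj' := fun i j _ => hs i j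
        map_rel_iff' := by
          intro i j
          have := hs i j
          subst this
          simp }
    have := hodd 0 p hx hx2 (fun i hi _ => absurd (hs i 0) hi)
    exact absurd this (by decide)
  · have hex : ∃ y ∈ K₂, y ≠ x ∧ ¬ H.Adj x y := by
      by_contra hno
      push Not at hno
      have hcl : H.IsClique (insert x K₂) := by
        rw [SimpleGraph.isClique_insert]
        exact ⟨c₂, fun b hb hxb => hno b hb hxb.symm⟩
      have := m₂.2 _ hcl (Set.subset_insert x K₂)
      exact hx2 (this ▸ Set.mem_insert x K₂)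
    obtain ⟨y, hy, hyx, hnxy⟩ := hex
    obtain ⟨z, hz1, hz2, hz3, hz4⟩ := h.common x y hyx.symm hnxy K₁ K₂ c₁ c₂
    obtain ⟨p, hp0, hp1, hp2⟩ := exists_path2 hyx.symm hnxy hz3 hz4
    have := hodd 2 p (hp0 ▸ hx) (hp2 ▸ hy) (by
      intro i hi hi'
      have : i = 1 := by
        revert i; decide
      subst this
      rw [hp1]
      simp [hz1, hz2])
    exact absurd this (by decide)

/-- **Disproof of Q1.**  There is a finite Berge graph `G` with at least two vertices (it has 81
vertices and is isomorphic to its complement) such that neither `G` nor its complement has an even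
pair, and neither `G` nor its complement has an odd pair of cliques formed by two maximal
cliques. -/
theorem result : ∃ (V : Type) (_ : Fintype V) (G : SimpleGraph V),
    Fintype.card V = 81 ∧ Nonempty (Gᶜ ≃g G) ∧ IsBerge G ∧
    (∀ H : SimpleGraph V, H = G ∨ H = Gᶜ →
      (∀ x y, ¬ IsEvenPair H x y) ∧
      (∀ K₁ K₂ : Set V, IsMaximalClique H K₁ → IsMaximalClique H K₂ →
        ¬ IsOddPairOfCliques H K₁ K₂)) := by
  refine ⟨(ZMod 3 × ZMod 3) × (ZMod 3 × ZMod 3), inferInstance, Pool.Agent.X258.OPC.G,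
    by simp [ZMod.card], ⟨Pool.Agent.X258.OPC.selfComp⟩, ?_, ?_⟩
  · intro k hk ho
    exact ⟨Pool.Agent.X258.OPC.nice_G.hole k hk ho, Pool.Agent.X258.OPC.nice_compl.hole k hk ho⟩
  · rintro H (rfl | rfl)
    · exact ⟨no_even_pair Pool.Agent.X258.OPC.nice_G,
        fun K₁ K₂ => no_odd_pair Pool.Agent.X258.OPC.nice_G K₁ K₂⟩
    · exact ⟨no_even_pair Pool.Agent.X258.OPC.nice_compl,
        fun K₁ K₂ => no_odd_pair Pool.Agent.X258.OPC.nice_compl K₁ K₂⟩

end Pool.Agent.Results.MP_42d775_co.LexicographicSquare
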